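import Mathlib
import Pool.Agent.H504R3.ThB

/-!
# Strongly McDuff factors are not elementarily equivalent to the hyperfinite factor

Let `M = N ⊗ R` where `N` is a separable II_1 factor without property Gamma. Then some sentence of
continuous logic distinguishes `M` from the hyperfinite II_1 factor `R`.

Idea: `N` has a finite tuple `a` of contractions with spectral gap. For tuples `b` of contractions
consider the infimum over the contractions `u` of
`‖u* u - 1‖₂ + ∑ ‖[u b_i u*, b_k]‖₂`. In `R` this infimum is `0` for all `b` (a flip of tensor
factors moves `b` into its almost commutant). In `M` it is bounded away from `0` for `b = a`: an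
almost unitary `u` as above would conjugate `a` into almost the relative commutant `R` of `a`, so
into almost a matrix subalgebra `Q` of `R`, then `u* (Q' ∩ M) u` lies almost in `R`, and so
`u N u*` lies almost in `Q'' = Q`, which is finite dimensional.
-/

set_option autoImplicit false

namespace Pool.Agent.Results.MP_af2a1c_lc.StronglyMcDuffNotEquivR

open Pool.Agent.H504R3.S

/-- No strongly McDuff II_1 factor is elementarily equivalent to the hyperfinite II_1 factor. -/
theorem result (M R : Str) (hM : M.IsStronglyMcDuff) (hR : R.IsHyperfinite) : ¬ M.ElemEq R :=
  not_elemEq M R hM hR

end Pool.Agent.Results.MP_af2a1c_lc.StronglyMcDuffNotEquivR
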